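import Pool.Agent.Q284.PX.Stm
import Pool.Agent.Q24.PS.EB

/-!
# Project PX (helper284): mean squares over families of characters, no special prime (job PX-EBa)
-/

set_option autoImplicit false

open Finset Polynomial ComplexConjugate
open Pool.Agent.H341R2.Sharp (Mon mem_Mon)

namespace Pool.Agent.Q225.PX

open Pool.Agent.Q284.PS hiding Good
open Pool.Agent.Q284.PX
open Pool.Agent.Q24.PS (l2n l2n_add l2n_sum l2n_mul_le l2n_le three_of_char hay_le Mon_zero three_le)

lemma w2_pos {q : ℝ} (hq : 0 < q) (d : ℕ) {n : ℕ} (hn : 1 ≤ n) : 0 < w2 q d n := by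
  have hnp : (0 : ℝ) < n := by exact_mod_cast hn
  unfold w2
  positivity

lemma w2_sq {q : ℝ} (hq : 0 < q) (d : ℕ) {n : ℕ} (hn : 1 ≤ n) :
    w2 q d n ^ 2 = q ^ n / n * om2 q d n := by
  have hnp : (0 : ℝ) < n := by exact_mod_cast hn
  unfold w2 om2
  have e1 : (q ^ ((1 - 5 / (2 * (d : ℝ))) * n)) ^ 2 = q ^ n * q ^ ((1 - 5 / (d : ℝ)) * n) := by
    rw [← Real.rpow_natCast q n, ← Real.rpow_add hq, ← Real.rpow_natCast, ← Real.rpow_mul hq.le]
    congr 1
    rcases Nat.eq_zero_or_pos d with h | h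
    · rw [h]
      simp
      ring
    · have hd : (d : ℝ) ≠ 0 := by
        have : (0 : ℝ) < d := by exact_mod_cast h
        exact this.ne'
      field_simp
      push_cast
      ring
  have e2 : ((n : ℝ) ^ ((5 : ℝ) / 2)) ^ 2 = (n : ℝ) ^ 5 := by
    rw [← Real.rpow_natCast, ← Real.rpow_mul hnp.le, ← Real.rpow_natCast (n : ℝ) 5]
    congr 1
    norm_num
  rw [div_pow, e1, e2]
  field_simp

section main

variable {F : Type} [Field F] [Fintype F]

lemma ef_zero (v : F[X] → ℕ → ℝ) {χ : F[X] → ℂ} (h : χ 1 = 1) : ef v χ 0 = 1 := by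
  unfold ef
  rw [Mon_zero, sum_singleton, h, mul_one]
  simp only [AF, UniqueFactorizationMonoid.normalizedFactors_one]
  simp

lemma ef_le {v : F[X] → ℕ → ℝ} {χ : F[X] → ℂ} (hχ : ∀ f, ‖χ f‖ ≤ 1) (n : ℕ) :
    ‖ef v χ n‖ ≤ ∑ f ∈ Mon F n, |AF v f| := by
  unfold ef
  refine (norm_sum_le _ _).trans (sum_le_sum fun f _ => ?_)
  rw [norm_mul, Complex.norm_real, Real.norm_eq_abs]
  exact mul_le_of_le_one_right (abs_nonneg _) (hχ f)

/-- the primes of one degree -/
lemma sf_sum (hD : S_DUAL) (hq : 3 ≤ qq F) {d N : ℕ} {P₀ : F[X]} {a : F[X] → ℝ}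
    (hG : Good F d N P₀ a) {ι : Type} [Fintype ι]
    {χ : ι → F[X] → ℂ} {m : ℕ} (hm1 : 1 ≤ m) (hm : m ≤ N)
    (hNO : ∀ c : ι → ℂ, ∑ P ∈ PI F m, ‖phi χ c P‖ ^ 2 ≤ 2 * (qq F ^ m / m) * nsq c) :
    ∑ i, ‖sf a (χ i) m‖ ^ 2 ≤ 2 * (BB * w2 (qq F) d m) ^ 2 := by
  have hqp : 0 < qq F := by linarith
  have hmp : (0 : ℝ) < m := by exact_mod_cast hm1
  have h1 := hD F[X] (PI F m) ι χ (2 * (qq F ^ m / m)) (by positivity) hNO (fun P => (a P : ℂ))
  have h2 := hG.l2 m hm1 hm
  have h3 : ∑ P ∈ PI F m, ‖(a P : ℂ)‖ ^ 2 = ∑ P ∈ PI F m, a P ^ 2 := by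
    refine sum_congr rfl fun P _ => ?_
    rw [Complex.norm_real, Real.norm_eq_abs, sq_abs]
  rw [h3] at h1
  calc ∑ i, ‖sf a (χ i) m‖ ^ 2 ≤ 2 * (qq F ^ m / m) * ∑ P ∈ PI F m, a P ^ 2 := h1
    _ ≤ 2 * (qq F ^ m / m) * (BB ^ 2 * om2 (qq F) d m) := mul_le_mul_of_nonneg_left h2 (by positivity)
    _ = _ := by
        rw [mul_pow, w2_sq hqp d hm1]
        ring

lemma sv_eq {K : ℕ} {h : ℝ → ℕ → ℝ} (hL : LFam K h) {d N : ℕ} {P₀ : F[X]} {a : F[X] → ℝ}
    (hG : Good F d N P₀ a) (χ : F[X] → ℂ) {m : ℕ} (hm : m ≤ N) :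
    sv (Lo h P₀ g0 a) χ m = sf a χ m := by
  unfold sv sf
  refine sum_congr rfl fun P hP => ?_
  have h1 : Lo h P₀ g0 a P 1 = a P := by
    unfold Lo
    split_ifs with h0
    · rw [h0, hG.spec]
      simp [g0]
    · exact hL.one _ (hG.small m hm P hP)
  rw [h1]

end main

theorem t_EBa : S_NO → S_UP → S_DUAL → S_DEC2 → S_GBa → S_WC2 → S_EBa := by
  intro ⟨d₁, hd₁, hNO⟩ ⟨C, _, hUP⟩ hD hDEC ⟨d₀, hGB⟩ hWC
  refine ⟨max d₀ 4, 2 * d₁ + 2, fun d hd F _ _ hF K h hK hL N P₀ a hG n hn1 hn R ι _ χ hχ hR => ?_⟩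
  have hd0 : d₀ ≤ d := (le_max_left _ _).trans hd
  have hd4 : 4 ≤ d := (le_max_right _ _).trans hd
  have hF3 := three_of_char hF
  have hq := three_le (F := F) hF3
  have hqp : 0 < qq F := by linarith
  have hnp : (0 : ℝ) < n := by exact_mod_cast hn1
  have hB : 0 < BB := by
    unfold BB
    norm_num
  have hw := w2_pos hqp d hn1
  have hss : ∀ m, d₁ * (R + 1) ≤ m → 1 ≤ m → m ≤ N →
      ∑ i, ‖sf a (χ i) m‖ ^ 2 ≤ 2 * (BB * w2 (qq F) d m) ^ 2 := by
    intro m h1 h2 h3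
    exact sf_sum hD hq hG h2 h3
      (fun c => (hNO F hF R m ι χ hχ h1 c).2)
  have hRn : d₁ * (R + 1) ≤ n := by nlinarith
  have hR2 : 2 * R ≤ n := by nlinarith
  have hχ1 : ∀ i f, ‖χ i f‖ ≤ 1 := by
    intro i f
    obtain ⟨Q, l, h, _⟩ := hχ.lev i
    exact hay_le h f
  have hCM : ∀ i, CM (χ i) := by
    intro i
    obtain ⟨Q, l, h, _⟩ := hχ.lev i
    exact ⟨h.one, h.mul⟩
  have hv0 : ∀ P : F[X], Lo h P₀ g0 a P 0 = 1 := by
    intro P
    unfold Lo
    split_ifs
    · simp [g0]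
    · exact hL.zero _
  set v := Lo h P₀ g0 a with hv
  refine ⟨?_, ?_⟩
  · refine l2n_le (v := fun i => sf a (χ i) n) (by positivity) ((hss n hRn hn1 hn).trans ?_)
    have : 0 ≤ (BB * w2 (qq F) d n) ^ 2 := sq_nonneg _
    nlinarith
  · -- decomposition
    have hdec : ∀ i, ef v (χ i) n - sf a (χ i) n =
        ∑ j ∈ (Icc 1 (n - 1)).filter (fun j => 2 * j < n), ef v (χ i) j * sf a (χ i) (n - j) +
        ∑ f ∈ Sm F n, (AF v f : ℂ) * χ i f := by
      intro i
      rw [hDEC F v (χ i) hv0 (hCM i) n hn1]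
      have h1 : (range n).filter (fun i => 2 * i < n) =
          insert 0 ((Icc 1 (n - 1)).filter (fun j => 2 * j < n)) := by
        ext j
        simp only [mem_filter, mem_range, mem_insert, mem_Icc]
        omega
      have h2 : ∀ j, sv v (χ i) (n - j) = sf a (χ i) (n - j) := fun j =>
        sv_eq hL hG (χ i) (by omega)
      rw [h1, sum_insert (by
        simp only [mem_filter, mem_Icc]
        omega), ef_zero v (hCM i).1, one_mul, Nat.sub_zero]
      have h3 : sv v (χ i) n = sf a (χ i) n := sv_eq hL hG (χ i) hn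
      rw [h3]
      simp only [h2]
      ring
    show l2n (fun i => ef v (χ i) n - sf a (χ i) n) ≤ _
    have h0 : (fun i => ef v (χ i) n - sf a (χ i) n) = fun i =>
        (∑ j ∈ (Icc 1 (n - 1)).filter (fun j => 2 * j < n), ef v (χ i) j * sf a (χ i) (n - j)) +
        ∑ f ∈ Sm F n, (AF v f : ℂ) * χ i f := by
      funext i
      exact hdec i
    rw [h0]
    refine (l2n_add _ _).trans ?_
    -- the first part
    have p1 : l2n (fun i => ∑ j ∈ (Icc 1 (n - 1)).filter (fun j => 2 * j < n),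
        ef v (χ i) j * sf a (χ i) (n - j)) ≤ 1 / 100 * BB * w2 (qq F) d n := by
      refine (l2n_sum _ (fun j i => ef v (χ i) j * sf a (χ i) (n - j))).trans ?_
      have h1 : ∀ j ∈ (Icc 1 (n - 1)).filter (fun j => 2 * j < n),
          l2n (fun i => ef v (χ i) j * sf a (χ i) (n - j)) ≤
            5 / 2 * BB * (3 / 2 * BB) * (w2 (qq F) d j * w2 (qq F) d (n - j)) := by
        intro j hj
        rw [mem_filter, mem_Icc] at hj
        obtain ⟨⟨j1, j2⟩, j3⟩ := hj
        have hw1 := w2_pos hqp d j1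
        have hw2 := w2_pos (n := n - j) hqp d (by omega)
        have h2 : ∀ i, ‖ef v (χ i) j‖ ≤ 5 / 2 * BB * w2 (qq F) d j := fun i =>
          (ef_le (hχ1 i) j).trans (hGB d hd0 F hF3 K h hK hL N P₀ a hG j j1 (by omega)).1
        have h3 := l2n_mul_le (fun i => ef v (χ i) j) (fun i => sf a (χ i) (n - j)) _ (by positivity) h2
        have h4 : l2n (fun i => sf a (χ i) (n - j)) ≤ 3 / 2 * BB * w2 (qq F) d (n - j) := by
          refine l2n_le (by positivity) ((hss (n - j) ?_ (by omega) (by omega)).trans ?_)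
          · have h5 : 2 * (d₁ * (R + 1)) ≤ n := by nlinarith
            omega
          · have : 0 ≤ (BB * w2 (qq F) d (n - j)) ^ 2 := sq_nonneg _
            nlinarith
        calc _ ≤ 5 / 2 * BB * w2 (qq F) d j * l2n (fun i => sf a (χ i) (n - j)) := h3
          _ ≤ 5 / 2 * BB * w2 (qq F) d j * (3 / 2 * BB * w2 (qq F) d (n - j)) :=
              mul_le_mul_of_nonneg_left h4 (by positivity)
          _ = _ := by ring
      refine (sum_le_sum h1).trans ?_
      rw [← mul_sum]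
      have h2 : ∑ j ∈ (Icc 1 (n - 1)).filter (fun j => 2 * j < n), w2 (qq F) d j * w2 (qq F) d (n - j) ≤
          16 * w2 (qq F) d n := by
        refine le_trans ?_ (hWC (qq F) d n hq (by omega)).1
        apply sum_le_sum_of_subset_of_nonneg (filter_subset _ _)
        intro j _ _
        have h6 : 0 ≤ w2 (qq F) d j := by unfold w2; positivity
        have h7 : 0 ≤ w2 (qq F) d (n - j) := by unfold w2; positivity
        positivity
      have h3 : 5 / 2 * BB * (3 / 2 * BB) * (16 * w2 (qq F) d n) ≤ 1 / 100 * BB * w2 (qq F) d n := by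
        have h4 : 5 / 2 * BB * (3 / 2 * BB) * (16 * w2 (qq F) d n) =
            (5 / 2 * (3 / 2 * BB) * 16) * (BB * w2 (qq F) d n) := by ring
        have h5 : 5 / 2 * (3 / 2 * BB) * 16 ≤ 1 / 100 := by
          unfold BB
          norm_num
        rw [h4]
        calc _ ≤ 1 / 100 * (BB * w2 (qq F) d n) := mul_le_mul_of_nonneg_right h5 (by positivity)
          _ = _ := by ring
      exact (mul_le_mul_of_nonneg_left h2 (by positivity)).trans h3
    -- the second part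
    have p2 : l2n (fun i => ∑ f ∈ Sm F n, (AF v f : ℂ) * χ i f) ≤ 1 / 100 * BB * w2 (qq F) d n := by
      have h1 : ∀ c : ι → ℂ, ∑ f ∈ Sm F n, ‖∑ i, c i * χ i f‖ ^ 2 ≤ qq F ^ n * nsq c := by
        intro c
        refine le_trans ?_ ((hUP F R ι χ hχ n c).1 hR2)
        apply sum_le_sum_of_subset_of_nonneg
        · intro f hf
          simp only [Sm, mem_filter] at hf
          exact hf.1
        · intro f _ _
          positivity
      have h2 := hD F[X] (Sm F n) ι χ (qq F ^ n) (by positivity) h1 (fun f => (AF v f : ℂ))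
      have h2' : ∑ f ∈ Sm F n, ‖(AF v f : ℂ)‖ ^ 2 = ∑ f ∈ Sm F n, AF v f ^ 2 := by
        refine sum_congr rfl fun f _ => ?_
        rw [Complex.norm_real, Real.norm_eq_abs, sq_abs]
      rw [h2'] at h2
      have h3 := (hGB d hd0 F hF3 K h hK hL N P₀ a hG n hn1 hn).2.2
      refine l2n_le (by positivity) (h2.trans ?_)
      calc qq F ^ n * ∑ f ∈ Sm F n, AF v f ^ 2 ≤
          qq F ^ n * (1 / 10 ^ 4 * (BB ^ 2 * om2 (qq F) d n / n)) := mul_le_mul_of_nonneg_left h3 (by positivity)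
        _ = (1 / 100) ^ 2 * BB ^ 2 * (qq F ^ n / n * om2 (qq F) d n) := by ring
        _ = _ := by
            rw [← w2_sq hqp d hn1]
            ring
    have : 0 < BB * w2 (qq F) d n := by positivity
    linarith

end Pool.Agent.Q225.PX
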