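import Pool.Agent.Q284.PX.Stm
import Pool.Agent.Q277.PS.WC

/-!
# Project PX (helper284): convolution of the weights (job PX-WC2)
-/

set_option autoImplicit false

open Finset Polynomial ComplexConjugate

namespace Pool.Agent.Q225.PX

open Pool.Agent.Q284.PS Pool.Agent.Q284.PX
open Pool.Agent.Q277.PS (conv_sum)

theorem t_WC2 : S_WC2 := by
  intro q d n hq hd
  have hq0 : 0 < q := by linarith
  constructor
  · have h1 : ∀ i ∈ Icc 1 (n - 1), w2 q d i * w2 q d (n - i) =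
        q ^ ((1 - 5 / (2 * (d : ℝ))) * n) *
          (1 / ((i : ℝ) ^ ((5 : ℝ) / 2) * ((n - i : ℕ) : ℝ) ^ ((5 : ℝ) / 2))) := by
      intro i hi
      rw [Finset.mem_Icc] at hi
      unfold w2
      have e2 : q ^ ((1 - 5 / (2 * (d : ℝ))) * n) =
          q ^ ((1 - 5 / (2 * (d : ℝ))) * i) * q ^ ((1 - 5 / (2 * (d : ℝ))) * (n - i : ℕ)) := by
        rw [← Real.rpow_add hq0]
        congr 1
        rw [Nat.cast_sub (by omega)]
        ring
      rw [e2]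
      ring
    rw [Finset.sum_congr rfl h1, ← Finset.mul_sum]
    have h5 := conv_sum (5 / 2) (by norm_num) n
    have h6 : (2 : ℝ) ^ ((5 : ℝ) / 2 - 1) ≤ 3 := by
      have e : ((5 : ℝ) / 2 - 1) = 3 * (1 / 2 : ℝ) := by norm_num
      rw [e, Real.rpow_mul (by norm_num)]
      have h7 : (2 : ℝ) ^ (3 : ℝ) = 8 := by
        rw [show (3 : ℝ) = ((3 : ℕ) : ℝ) by norm_num, Real.rpow_natCast]
        norm_num
      rw [h7, ← Real.sqrt_eq_rpow]
      rw [show (3 : ℝ) = Real.sqrt 9 by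
        rw [show (9 : ℝ) = 3 ^ 2 by norm_num, Real.sqrt_sq (by norm_num)]]
      exact Real.sqrt_le_sqrt (by norm_num)
    have h8 : (0 : ℝ) ≤ q ^ ((1 - 5 / (2 * (d : ℝ))) * n) := Real.rpow_nonneg hq0.le _
    have h9 : (0 : ℝ) ≤ (n : ℝ) ^ ((5 : ℝ) / 2) := Real.rpow_nonneg (Nat.cast_nonneg n) _
    have h10 : (2 : ℝ) ^ ((5 : ℝ) / 2 - 1) * 4 / (n : ℝ) ^ ((5 : ℝ) / 2) ≤
        12 / (n : ℝ) ^ ((5 : ℝ) / 2) := div_le_div_of_nonneg_right (by linarith) h9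
    calc q ^ ((1 - 5 / (2 * (d : ℝ))) * n) * ∑ i ∈ Icc 1 (n - 1),
          (1 / ((i : ℝ) ^ ((5 : ℝ) / 2) * ((n - i : ℕ) : ℝ) ^ ((5 : ℝ) / 2)))
        ≤ q ^ ((1 - 5 / (2 * (d : ℝ))) * n) * (12 / (n : ℝ) ^ ((5 : ℝ) / 2)) :=
          mul_le_mul_of_nonneg_left (h5.trans h10) h8
      _ = 12 * w2 q d n := by
          unfold w2
          ring
      _ ≤ 16 * w2 q d n := by
          refine mul_le_mul_of_nonneg_right (by norm_num) ?_
          unfold w2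
          positivity
  · have e4 : ∀ x : ℝ, x ^ (4 : ℝ) = x ^ 4 := fun x => by
      rw [show (4 : ℝ) = ((4 : ℕ) : ℝ) by norm_num, Real.rpow_natCast]
    have h1 : ∀ i ∈ Icc 1 (n - 1), om2 q d i * om2 q d (n - i) =
        q ^ ((1 - 5 / (d : ℝ)) * n) *
          (1 / ((i : ℝ) ^ (4 : ℝ) * ((n - i : ℕ) : ℝ) ^ (4 : ℝ))) := by
      intro i hi
      rw [Finset.mem_Icc] at hi
      unfold om2
      have e2 : q ^ ((1 - 5 / (d : ℝ)) * n) =
          q ^ ((1 - 5 / (d : ℝ)) * i) * q ^ ((1 - 5 / (d : ℝ)) * (n - i : ℕ)) := by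
        rw [← Real.rpow_add hq0]
        congr 1
        rw [Nat.cast_sub (by omega)]
        ring
      rw [e2, e4, e4]
      ring
    rw [Finset.sum_congr rfl h1, ← Finset.mul_sum]
    have h5 := conv_sum 4 (by norm_num) n
    have h6 : (2 : ℝ) ^ ((4 : ℝ) - 1) = 8 := by
      rw [show ((4 : ℝ) - 1) = ((3 : ℕ) : ℝ) by norm_num, Real.rpow_natCast]
      norm_num
    rw [h6] at h5
    have h8 : (0 : ℝ) ≤ q ^ ((1 - 5 / (d : ℝ)) * n) := Real.rpow_nonneg hq0.le _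
    calc q ^ ((1 - 5 / (d : ℝ)) * n) * ∑ i ∈ Icc 1 (n - 1),
          (1 / ((i : ℝ) ^ (4 : ℝ) * ((n - i : ℕ) : ℝ) ^ (4 : ℝ)))
        ≤ q ^ ((1 - 5 / (d : ℝ)) * n) * (8 * 4 / (n : ℝ) ^ (4 : ℝ)) :=
          mul_le_mul_of_nonneg_left h5 h8
      _ = 32 * om2 q d n := by
          unfold om2
          rw [e4]
          ring
      _ ≤ 35 * om2 q d n := by
          refine mul_le_mul_of_nonneg_right (by norm_num) ?_
          unfold om2
          positivity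

end Pool.Agent.Q225.PX
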